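import Mathlib

/-!
# T1 spaces with a base of sub-infinite rank are metacompact

Let `C` be a family of open sets such that the members through a point never contain an infinite
antichain.  The maximal unions of directed subfamilies of `C` inside an open set `O` form a
point-finite family (`finite_isMx`), which covers `O` when `C` is a base.  Given an open cover,
start with the maximal directed unions in the whole space, and in each of them which is not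
covered by finitely many members of the cover remove a point and pass to the maximal directed
unions inside the rest.  An infinite branch through a point would produce an infinite antichain
(`no_branch`), so that the tree of all sets through a point is finite by the lemma of Konig.
-/

set_option autoImplicit false

universe u

namespace Pool.Agent.Y444.SubInf

open Set TopologicalSpace

variable {X : Type u}

/-- no infinite antichain -/
def NoAnti (P : Set (Set X)) : Prop :=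
  ∀ f : ℕ → Set X, (∀ n, f n ∈ P) → (∀ m n, m ≠ n → ¬ f m ⊆ f n) → False

/-- common upper bound inside `P` -/
def Compat (P : Set (Set X)) (a b : Set X) : Prop := ∃ c ∈ P, a ⊆ c ∧ b ⊆ c

/-- the members of `P` containing `a` -/
def Up (P : Set (Set X)) (a : Set X) : Set (Set X) := {c | c ∈ P ∧ a ⊆ c}

theorem exists_directed_above {P : Set (Set X)} (hP : NoAnti P) {a : Set X} (ha : a ∈ P) :
    ∃ b ∈ P, a ⊆ b ∧ DirectedOn (· ⊆ ·) (Up P b) := by
  classical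
  by_contra hcon
  push Not at hcon
  -- step
  have hstep : ∀ c : {c // c ∈ P ∧ a ⊆ c}, ∃ p : {c // c ∈ P ∧ a ⊆ c} × {c // c ∈ P ∧ a ⊆ c},
      c.1 ⊆ p.1.1 ∧ c.1 ⊆ p.2.1 ∧ ¬ Compat P p.1.1 p.2.1 := by
    rintro ⟨c, hc, hac⟩
    have h := hcon c hc hac
    unfold DirectedOn at h
    push Not at h
    obtain ⟨b, hb, d, hd, hbd⟩ := h
    refine ⟨⟨⟨b, hb.1, hac.trans hb.2⟩, ⟨d, hd.1, hac.trans hd.2⟩⟩, hb.2, hd.2, ?_⟩
    rintro ⟨e, he, hbe, hde⟩
    exact hbd e ⟨he, hb.2.trans hbe⟩ hbe hde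
  choose s hs1 hs2 hs3 using hstep
  let g : ℕ → {c // c ∈ P ∧ a ⊆ c} := fun n => Nat.rec ⟨a, ha, subset_rfl⟩ (fun _ c => (s c).2) n
  have hg : ∀ n, g (n + 1) = (s (g n)).2 := fun n => rfl
  have hgm : ∀ m n, m ≤ n → (g m).1 ⊆ (g n).1 := by
    intro m n hmn
    induction hmn with
    | refl => exact subset_rfl
    | step _ ih => exact ih.trans (by rw [hg]; exact hs2 _)
  let f : ℕ → Set X := fun n => (s (g n)).1.1
  have hinc : ∀ m n, m < n → ¬ Compat P (f m) (f n) := by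
    rintro m n hmn ⟨e, he, h1, h2⟩
    apply hs3 (g m)
    refine ⟨e, he, h1, ?_⟩
    rw [← hg]
    exact ((hgm (m + 1) n hmn).trans (hs1 (g n))).trans h2
  have hfP : ∀ n, f n ∈ P := fun n => (s (g n)).1.2.1
  refine hP f hfP ?_
  intro m n hmn hsub
  rcases lt_or_gt_of_ne hmn with h | h
  · exact hinc m n h ⟨f n, hfP n, hsub, subset_rfl⟩
  · exact hinc n m h ⟨f n, hfP n, subset_rfl, hsub⟩

/-- A family without infinite antichains is, up to cofinality, a finite union of directed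
families. -/
theorem decomposition {P : Set (Set X)} (hP : NoAnti P) :
    ∃ A : Set (Set X), A.Finite ∧ A ⊆ P ∧ (∀ a ∈ A, DirectedOn (· ⊆ ·) (Up P a)) ∧
      ∀ J ⊆ P, J.Nonempty → DirectedOn (· ⊆ ·) J → ∃ a ∈ A, ⋃₀ J ⊆ ⋃₀ Up P a := by
  classical
  let G : Set (Set X) := {a | a ∈ P ∧ DirectedOn (· ⊆ ·) (Up P a)}
  obtain ⟨A, hA⟩ := zorn_subset {A : Set (Set X) | A ⊆ G ∧ A.Pairwise fun a b => ¬ Compat P a b} (by
    intro c hc hch
    refine ⟨⋃₀ c, ⟨sUnion_subset fun s hs => (hc hs).1, ?_⟩, fun s hs => subset_sUnion_of_mem hs⟩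
    rintro a ⟨s, hs, has⟩ b ⟨t, ht, hbt⟩ hab
    rcases hch.total hs ht with h | h
    · exact (hc ht).2 (h has) hbt hab
    · exact (hc hs).2 has (h hbt) hab)
  have hAG := hA.prop.1
  have hAp := hA.prop.2
  have hcomp : ∀ g ∈ G, ∃ a ∈ A, Compat P g a := by
    intro g hg
    by_contra hcon
    push Not at hcon
    have hins : insert g A ⊆ A := hA.2 ⟨insert_subset hg hAG, by
      refine hAp.insert ?_
      intro b hb _
      exact ⟨hcon b hb, fun ⟨c, hc, h1, h2⟩ => hcon b hb ⟨c, hc, h2, h1⟩⟩⟩ (subset_insert g A)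
    exact hcon g (hins (mem_insert g A)) ⟨g, hg.1, subset_rfl, subset_rfl⟩
  refine ⟨A, ?_, fun a ha => (hAG ha).1, fun a ha => (hAG ha).2, ?_⟩
  · by_contra hinf
    have hinf' : A.Infinite := hinf
    let e := hinf'.natEmbedding
    refine hP (fun n => (e n).1) (fun n => (hAG (e n).2).1) ?_
    intro m n hmn hsub
    have hne : (e m).1 ≠ (e n).1 := fun h => hmn (e.injective (Subtype.ext h))
    exact hAp (e m).2 (e n).2 hne ⟨(e n).1, (hAG (e n).2).1, hsub, subset_rfl⟩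
  · intro J hJ hJne hJd
    have hAfin : A.Finite := by
      by_contra hinf
      have hinf' : A.Infinite := hinf
      let e := hinf'.natEmbedding
      refine hP (fun n => (e n).1) (fun n => (hAG (e n).2).1) ?_
      intro m n hmn hsub
      have hne : (e m).1 ≠ (e n).1 := fun h => hmn (e.injective (Subtype.ext h))
      exact hAp (e m).2 (e n).2 hne ⟨(e n).1, (hAG (e n).2).1, hsub, subset_rfl⟩
    by_contra hcon
    push Not at hcon
    -- for each `a ∈ A` a member of `J` which is not below `Up P a`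
    have hbad : ∀ a ∈ A, ∃ j ∈ J, ∀ c ∈ Up P a, ¬ j ⊆ c := by
      intro a ha
      by_contra h
      push Not at h
      refine hcon a ha ?_
      rintro y ⟨j, hj, hyj⟩
      obtain ⟨c, hc, hjc⟩ := h j hj
      exact ⟨c, hc, hjc hyj⟩
    choose! φ hφ1 hφ2 using hbad
    -- an upper bound
    have hub : ∀ F : Set (Set X), F.Finite → F ⊆ J → ∃ j ∈ J, ∀ k ∈ F, k ⊆ j := by
      intro F hF
      induction F, hF using Set.Finite.induction_on with
      | empty =>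
        intro _
        obtain ⟨j, hj⟩ := hJne
        exact ⟨j, hj, by simp⟩
      | insert _ _ ih =>
        intro hsub
        obtain ⟨j, hj, hjF⟩ := ih fun k hk => hsub (mem_insert_of_mem _ hk)
        obtain ⟨l, hl, h1, h2⟩ := hJd _ (hsub (mem_insert _ _)) j hj
        refine ⟨l, hl, ?_⟩
        intro k hk
        rcases mem_insert_iff.1 hk with rfl | hk
        · exact h1
        · exact (hjF k hk).trans h2
    obtain ⟨j, hj, hjA⟩ := hub (φ '' A) (hAfin.image φ) (by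
      rintro _ ⟨a, ha, rfl⟩
      exact hφ1 a ha)
    obtain ⟨g, hg, hjg, hgd⟩ := exists_directed_above hP (hJ hj)
    obtain ⟨a, ha, c, hc, hgc, hac⟩ := hcomp g ⟨hg, hgd⟩
    exact hφ2 a ha c ⟨hc, hac⟩ (((hjA _ ⟨a, ha, rfl⟩).trans hjg).trans hgc)

/-- unions of directed subfamilies of `C` inside `O` -/
def DU (C : Set (Set X)) (O V : Set X) : Prop :=
  ∃ J ⊆ C, J.Nonempty ∧ DirectedOn (· ⊆ ·) J ∧ V = ⋃₀ J ∧ V ⊆ O

/-- maximal directed unions inside `O` -/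
def IsMx (C : Set (Set X)) (O E : Set X) : Prop :=
  DU C O E ∧ ∀ E', DU C O E' → E ⊆ E' → E' ⊆ E

/-- a finite subset of a directed union lies in a member -/
theorem mem_two {J : Set (Set X)} (hJ : DirectedOn (· ⊆ ·) J) {A : Set X}
    (hA : A ∈ J) {y : X} (hy : y ∈ ⋃₀ J) : ∃ A' ∈ J, A ⊆ A' ∧ y ∈ A' := by
  obtain ⟨B, hB, hyB⟩ := hy
  obtain ⟨A', hA', h1, h2⟩ := hJ A hA B hB
  exact ⟨A', hA', h1, h2 hyB⟩

theorem DU.through {C : Set (Set X)} {O V : Set X} (h : DU C O V) {q : X} (hq : q ∈ V) :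
    ∃ J ⊆ {A | A ∈ C ∧ q ∈ A ∧ A ⊆ O}, J.Nonempty ∧ DirectedOn (· ⊆ ·) J ∧ V = ⋃₀ J := by
  obtain ⟨J, hJC, ⟨A0, hA0⟩, hJd, hV, hVO⟩ := h
  obtain ⟨A1, hA1, -, hqA1⟩ := mem_two hJd hA0 (hV ▸ hq)
  refine ⟨{A | A ∈ J ∧ q ∈ A}, ?_, ⟨A1, hA1, hqA1⟩, ?_, ?_⟩
  · rintro A ⟨hA, hqA⟩
    exact ⟨hJC hA, hqA, (subset_sUnion_of_mem hA).trans (hV ▸ hVO)⟩
  · rintro A ⟨hA, hqA⟩ B ⟨hB, hqB⟩
    obtain ⟨D, hD, h1, h2⟩ := hJd A hA B hB
    exact ⟨D, ⟨hD, h1 hqA⟩, h1, h2⟩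
  · rw [hV]
    apply Subset.antisymm
    · rintro y ⟨A, hA, hyA⟩
      obtain ⟨A', hA', h1, h2⟩ := mem_two hJd hA (y := q) (hV ▸ hq)
      exact ⟨A', ⟨hA', h2⟩, h1 hyA⟩
    · exact sUnion_subset_sUnion fun A hA => hA.1

/-- `C` has no infinite antichain through a point -/
def Sub (C : Set (Set X)) : Prop :=
  ∀ x : X, NoAnti {A | A ∈ C ∧ x ∈ A}

theorem Sub.noAnti {C : Set (Set X)} (hC : Sub C) (q : X) (O : Set X) :
    NoAnti {A | A ∈ C ∧ q ∈ A ∧ A ⊆ O} := by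
  intro f hf h
  exact hC q f (fun n => ⟨(hf n).1, (hf n).2.1⟩) h

/-- the finite list of directed unions through `q` -/
theorem exists_list {C : Set (Set X)} (hC : Sub C) (O : Set X) (q : X) :
    ∃ 𝒲 : Set (Set X), 𝒲.Finite ∧ (∀ W ∈ 𝒲, DU C O W ∧ q ∈ W) ∧
      ∀ V, DU C O V → q ∈ V → ∃ W ∈ 𝒲, V ⊆ W := by
  obtain ⟨A, hAf, hAP, hAd, hA⟩ := decomposition (hC.noAnti q O)
  refine ⟨(fun a => ⋃₀ Up {A | A ∈ C ∧ q ∈ A ∧ A ⊆ O} a) '' A, hAf.image _, ?_, ?_⟩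
  · rintro _ ⟨a, ha, rfl⟩
    refine ⟨⟨Up {A | A ∈ C ∧ q ∈ A ∧ A ⊆ O} a, fun c hc => hc.1.1, ⟨a, hAP ha, subset_rfl⟩,
      hAd a ha, rfl, sUnion_subset fun c hc => hc.1.2.2⟩, ?_⟩
    exact ⟨a, ⟨hAP ha, subset_rfl⟩, (hAP ha).2.1⟩
  · intro V hV hq
    obtain ⟨J, hJ1, hJ2, hJ3, hJ4⟩ := hV.through hq
    obtain ⟨a, ha, h⟩ := hA J hJ1 hJ2 hJ3
    exact ⟨_, ⟨a, ha, rfl⟩, hJ4 ▸ h⟩

theorem exists_isMx {C : Set (Set X)} (hC : Sub C) {O V : Set X} {q : X} (hV : DU C O V)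
    (hq : q ∈ V) : ∃ E, IsMx C O E ∧ V ⊆ E := by
  obtain ⟨𝒲, hf, h1, h2⟩ := exists_list hC O q
  obtain ⟨W, hW, hVW⟩ := h2 V hV hq
  obtain ⟨E, hWE, hE⟩ := hf.exists_le_maximal hW
  refine ⟨E, ⟨(h1 E hE.prop).1, ?_⟩, hVW.trans hWE⟩
  intro E' hE' hEE'
  obtain ⟨W', hW', hE'W'⟩ := h2 E' hE' (hEE' (h1 E hE.prop).2)
  exact hE'W'.trans (hE.2 hW' (hEE'.trans hE'W'))

theorem finite_isMx {C : Set (Set X)} (hC : Sub C) (O : Set X) (q : X) :
    {E | IsMx C O E ∧ q ∈ E}.Finite := by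
  obtain ⟨𝒲, hf, h1, h2⟩ := exists_list hC O q
  refine hf.subset ?_
  rintro E ⟨hE, hq⟩
  obtain ⟨W, hW, hEW⟩ := h2 E hE.1 hq
  have : E = W := Subset.antisymm hEW (hE.2 W (h1 W hW).1 hEW)
  rw [this]; exact hW

/-- there is no infinite branch through a point -/
theorem no_branch {C : Set (Set X)} (hC : Sub C) {Bd : Set X → Prop}
    (hBC : ∀ A ∈ C, Bd A) (hB0 : Bd ∅) (hBU : ∀ A B, Bd A → Bd B → Bd (A ∪ B))
    (hBm : ∀ A B, A ⊆ B → Bd B → Bd A)
    (x : X) (V : ℕ → Set X) (z : ℕ → X) (hV : ∀ n, ∃ O, DU C O (V n)) (hx : ∀ n, x ∈ V n)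
    (hz : ∀ n, z n ∈ V n) (hsub : ∀ n, V (n + 1) ⊆ V n \ {z n}) (hub : ∀ n, ¬ Bd (V n)) :
    False := by
  classical
  have hanti : ∀ m n, m ≤ n → V n ⊆ V m := by
    intro m n hmn
    induction hmn with
    | refl => exact subset_rfl
    | step _ ih => exact ((hsub _).trans sdiff_subset).trans ih
  have hzn : ∀ m n, m < n → z m ∉ V n := by
    intro m n hmn h
    exact (hsub m (hanti (m + 1) n hmn h)).2 rfl
  let P : ℕ × Set X → Prop := fun p => p.2 ∈ C ∧ x ∈ p.2 ∧ z p.1 ∈ p.2 ∧ p.2 ⊆ V p.1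
  let r : ℕ × Set X → ℕ × Set X → Prop := fun p q => p.1 < q.1 ∧ ¬ q.2 ⊆ p.2
  obtain ⟨f, hf1, hf2⟩ := exists_seq_of_forall_finset_exists P r (by
    intro s hs
    -- an index larger than all indices in `s`
    let n : ℕ := (s.sup fun p => p.1) + 1
    have hn : ∀ p ∈ s, p.1 < n := fun p hp =>
      Nat.lt_succ_of_le (Finset.le_sup (f := fun p : ℕ × Set X => p.1) hp)
    -- the union of the sets in `s` is bounded
    have hbd : Bd (⋃ p ∈ s, p.2) := by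
      have : ∀ t : Finset (ℕ × Set X), (∀ p ∈ t, P p) → Bd (⋃ p ∈ t, p.2) := by
        intro t
        induction t using Finset.induction_on with
        | empty => intro _; simpa using hB0
        | insert a t _ ih =>
          intro ht
          rw [Finset.set_biUnion_insert]
          exact hBU _ _ (hBC _ (ht a (Finset.mem_insert_self _ _)).1)
            (ih fun p hp => ht p (Finset.mem_insert_of_mem hp))
      exact this s hs
    obtain ⟨y, hyV, hy⟩ : ∃ y ∈ V n, y ∉ ⋃ p ∈ s, p.2 := by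
      by_contra hcon
      push Not at hcon
      exact hub n (hBm _ _ hcon hbd)
    obtain ⟨O, hO⟩ := hV n
    obtain ⟨J, hJC, hJne, hJd, hVJ, -⟩ := hO
    obtain ⟨A0, hA0⟩ := hJne
    obtain ⟨A1, hA1, -, h1⟩ := mem_two hJd hA0 (y := x) (hVJ ▸ hx n)
    obtain ⟨A2, hA2, h12, h2⟩ := mem_two hJd hA1 (y := z n) (hVJ ▸ hz n)
    obtain ⟨A3, hA3, h23, h3⟩ := mem_two hJd hA2 (y := y) (hVJ ▸ hyV)
    refine ⟨(n, A3), ⟨hJC hA3, h23 (h12 h1), h23 h2, hVJ ▸ subset_sUnion_of_mem hA3⟩, ?_⟩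
    intro p hp
    refine ⟨hn p hp, fun hcon => hy ?_⟩
    exact mem_biUnion (x := p) hp (hcon h3))
  refine hC x (fun n => (f n).2) (fun n => ⟨(hf1 n).1, (hf1 n).2.1⟩) ?_
  intro m n hmn hsub'
  rcases lt_or_gt_of_ne hmn with h | h
  · exact hzn _ _ (hf2 m n h).1 ((hf1 n).2.2.2 (hsub' (hf1 m).2.2.1))
  · exact (hf2 n m h).2 hsub'

section tree

variable (C : Set (Set X)) (Bd : Set X → Prop) (p : Set X → X)

/-- successors in the tree -/
def Rel (V E : Set X) : Prop := ¬ Bd V ∧ IsMx C (V \ {p V}) E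

/-- nodes of the tree -/
def T (E : Set X) : Prop := ∃ V, IsMx C univ V ∧ Relation.ReflTransGen (Rel C Bd p) V E

/-- successors through `x` -/
def RelX (x : X) (V E : Set X) : Prop := Rel C Bd p V E ∧ (∃ O, DU C O V) ∧ x ∈ E

end tree

theorem Rel.subset {C : Set (Set X)} {Bd : Set X → Prop} {p : Set X → X} {V E : Set X}
    (h : Rel C Bd p V E) : E ⊆ V \ {p V} := by
  obtain ⟨-, ⟨J, -, -, -, -, hsub⟩, -⟩ := h
  exact hsub

theorem reach_subset {C : Set (Set X)} {Bd : Set X → Prop} {p : Set X → X} {V E : Set X}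
    (h : Relation.ReflTransGen (Rel C Bd p) V E) : E ⊆ V := by
  induction h with
  | refl => exact subset_rfl
  | tail _ h ih => exact (h.subset.trans sdiff_subset).trans ih

theorem reach_DU {C : Set (Set X)} {Bd : Set X → Prop} {p : Set X → X} {V E : Set X}
    (hV : ∃ O, DU C O V) (h : Relation.ReflTransGen (Rel C Bd p) V E) : ∃ O, DU C O E := by
  induction h with
  | refl => exact hV
  | tail _ h _ => exact ⟨_, h.2.1⟩

theorem reach_x {C : Set (Set X)} {Bd : Set X → Prop} {p : Set X → X} {V E : Set X} {x : X}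
    (hV : ∃ O, DU C O V) (h : Relation.ReflTransGen (Rel C Bd p) V E) (hx : x ∈ E) :
    Relation.ReflTransGen (RelX C Bd p x) V E := by
  induction h with
  | refl => exact Relation.ReflTransGen.refl
  | tail h1 h2 ih =>
    refine Relation.ReflTransGen.tail (ih (h2.subset hx).1) ⟨h2, reach_DU hV h1, hx⟩

theorem wf_relX {C : Set (Set X)} (hC : Sub C) {Bd : Set X → Prop} {p : Set X → X}
    (hBC : ∀ A ∈ C, Bd A) (hB0 : Bd ∅) (hBU : ∀ A B, Bd A → Bd B → Bd (A ∪ B))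
    (hBm : ∀ A B, A ⊆ B → Bd B → Bd A) (hp : ∀ V : Set X, V.Nonempty → p V ∈ V) (x : X) :
    WellFounded (fun E V => RelX C Bd p x V E) := by
  rw [wellFounded_iff_isEmpty_descending_chain]
  refine ⟨fun ⟨f, hf⟩ => ?_⟩
  have hx : ∀ n, x ∈ f n := fun n => ((hf n).1.subset (hf n).2.2).1
  exact no_branch hC hBC hB0 hBU hBm x f (fun n => p (f n)) (fun n => (hf n).2.1) hx
    (fun n => hp _ ⟨x, hx n⟩) (fun n => (hf n).1.subset) (fun n => (hf n).1.1)

theorem finite_reach {C : Set (Set X)} (hC : Sub C) {Bd : Set X → Prop} {p : Set X → X}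
    (hBC : ∀ A ∈ C, Bd A) (hB0 : Bd ∅) (hBU : ∀ A B, Bd A → Bd B → Bd (A ∪ B))
    (hBm : ∀ A B, A ⊆ B → Bd B → Bd A) (hp : ∀ V : Set X, V.Nonempty → p V ∈ V) (x : X)
    (V : Set X) : {E | Relation.ReflTransGen (RelX C Bd p x) V E}.Finite := by
  induction V using (wf_relX hC hBC hB0 hBU hBm hp x).induction with
  | _ V ih =>
    have h1 : {E | RelX C Bd p x V E}.Finite :=
      (finite_isMx hC (V \ {p V}) x).subset fun E hE => ⟨hE.1.2, hE.2.2⟩
    have h2 : {E | Relation.ReflTransGen (RelX C Bd p x) V E} ⊆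
        {V} ∪ ⋃ E ∈ {E | RelX C Bd p x V E}, {F | Relation.ReflTransGen (RelX C Bd p x) E F} := by
      intro E hE
      rcases Relation.ReflTransGen.cases_head hE with h | ⟨F, hF, hFE⟩
      · exact Or.inl h.symm
      · exact Or.inr (mem_biUnion (show F ∈ {E | RelX C Bd p x V E} from hF) hFE)
    refine Set.Finite.subset ((finite_singleton V).union (h1.biUnion fun E hE => ih E hE)) h2

theorem finite_T {C : Set (Set X)} (hC : Sub C) {Bd : Set X → Prop} {p : Set X → X}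
    (hBC : ∀ A ∈ C, Bd A) (hB0 : Bd ∅) (hBU : ∀ A B, Bd A → Bd B → Bd (A ∪ B))
    (hBm : ∀ A B, A ⊆ B → Bd B → Bd A) (hp : ∀ V : Set X, V.Nonempty → p V ∈ V) (x : X) :
    {E | T C Bd p E ∧ x ∈ E}.Finite := by
  have h2 : {E | T C Bd p E ∧ x ∈ E} ⊆ ⋃ V ∈ {V | IsMx C univ V ∧ x ∈ V},
      {E | Relation.ReflTransGen (RelX C Bd p x) V E} := by
    rintro E ⟨⟨V, hV, hVE⟩, hx⟩
    exact mem_biUnion (show V ∈ {V | IsMx C univ V ∧ x ∈ V} from ⟨hV, reach_subset hVE hx⟩)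
      (reach_x ⟨_, hV.1⟩ hVE hx)
  exact ((finite_isMx hC univ x).biUnion
    fun V _ => finite_reach hC hBC hB0 hBU hBm hp x V).subset h2

/-- the main theorem: an open cover has a point-finite open refinement -/
theorem main [TopologicalSpace X] [T1Space X] {B : Set (Set X)}
    (hB : IsTopologicalBasis B) (hr : ∀ x : X, NoAnti {A | A ∈ B ∧ x ∈ A})
    (𝒰 : Set (Set X)) (hU : ∀ U ∈ 𝒰, IsOpen U) (hcov : ⋃₀ 𝒰 = univ) :
    ∃ 𝒱 : Set (Set X), (∀ V ∈ 𝒱, IsOpen V ∧ ∃ U ∈ 𝒰, V ⊆ U) ∧ ⋃₀ 𝒱 = univ ∧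
      ∀ x, {V | V ∈ 𝒱 ∧ x ∈ V}.Finite := by
  classical
  rcases isEmpty_or_nonempty X with hX | hX
  · refine ⟨∅, by simp, ?_, fun x => (hX.false x).elim⟩
    ext x; exact (hX.false x).elim
  let Bd : Set X → Prop := fun V => ∃ F : Set (Set X), F ⊆ 𝒰 ∧ F.Finite ∧ V ⊆ ⋃₀ F
  let C : Set (Set X) := {A | A ∈ B ∧ Bd A}
  have hC : Sub C := fun x f hf h => hr x f (fun n => ⟨(hf n).1.1, (hf n).2⟩) h
  have hBC : ∀ A ∈ C, Bd A := fun A hA => hA.2
  have hB0 : Bd ∅ := ⟨∅, empty_subset _, finite_empty, empty_subset _⟩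
  have hBU : ∀ A B, Bd A → Bd B → Bd (A ∪ B) := by
    rintro A D ⟨F, h1, h2, h3⟩ ⟨G, h4, h5, h6⟩
    refine ⟨F ∪ G, union_subset h1 h4, h2.union h5, ?_⟩
    rw [sUnion_union]
    exact union_subset_union h3 h6
  have hBm : ∀ A B, A ⊆ B → Bd B → Bd A := by
    rintro A D hAD ⟨F, h1, h2, h3⟩
    exact ⟨F, h1, h2, hAD.trans h3⟩
  have hCb : ∀ (x : X) (O : Set X), IsOpen O → x ∈ O → ∃ A ∈ C, x ∈ A ∧ A ⊆ O := by
    intro x O hO hx
    have hx' : x ∈ ⋃₀ 𝒰 := by rw [hcov]; trivial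
    obtain ⟨U, hUU, hxU⟩ := hx'
    obtain ⟨A, hA, hxA, hAO⟩ := hB.exists_subset_of_mem_open (show x ∈ O ∩ U from ⟨hx, hxU⟩)
      (hO.inter (hU U hUU))
    refine ⟨A, ⟨hA, {U}, singleton_subset_iff.2 hUU, finite_singleton U, ?_⟩, hxA,
      hAO.trans inter_subset_left⟩
    rw [sUnion_singleton]
    exact hAO.trans inter_subset_right
  have hCo : ∀ A ∈ C, IsOpen A := fun A hA => hB.isOpen hA.1
  have hDUo : ∀ O V, DU C O V → IsOpen V := by
    rintro O V ⟨J, hJ, -, -, rfl, -⟩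
    exact isOpen_sUnion fun A hA => hCo A (hJ hA)
  have hMx : ∀ (x : X) (O : Set X), IsOpen O → x ∈ O → ∃ E, IsMx C O E ∧ x ∈ E := by
    intro x O hO hx
    obtain ⟨A, hA, hxA, hAO⟩ := hCb x O hO hx
    obtain ⟨E, hE, hAE⟩ := exists_isMx hC (O := O) (V := A) (q := x)
      ⟨{A}, singleton_subset_iff.2 hA, singleton_nonempty A, by
        rintro Y hY Z hZ
        rw [mem_singleton_iff] at hY hZ
        subst hY; subst hZ
        exact ⟨_, rfl, subset_rfl, subset_rfl⟩, by rw [sUnion_singleton], hAO⟩ hxA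
    exact ⟨E, hE, hAE hxA⟩
  -- the removed points
  let p : Set X → X := fun V => if h : V.Nonempty then h.some else hX.some
  have hp : ∀ V : Set X, V.Nonempty → p V ∈ V := by
    intro V hV
    simp only [p, dif_pos hV]
    exact hV.some_mem
  -- small neighbourhoods of the removed points
  have hbex : ∀ V : Set X, ∃ b : Set X, (IsOpen V → V.Nonempty → b ∈ C ∧ p V ∈ b ∧ b ⊆ V) := by
    intro V
    by_cases h : IsOpen V ∧ V.Nonempty
    · obtain ⟨b, hb⟩ := hCb (p V) V h.1 (hp V h.2)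
      exact ⟨b, fun _ _ => hb⟩
    · exact ⟨∅, fun h1 h2 => absurd ⟨h1, h2⟩ h⟩
  choose b hb using hbex
  have hTopen : ∀ V, T C Bd p V → IsOpen V := by
    rintro V ⟨V0, hV0, hV⟩
    obtain ⟨O, hO⟩ := reach_DU ⟨_, hV0.1⟩ hV
    exact hDUo O V hO
  let 𝓕 : Set (Set X) := {V | T C Bd p V ∧ Bd V} ∪ b '' {V | T C Bd p V ∧ ¬ Bd V}
  have hne : ∀ V, ¬ Bd V → V.Nonempty := by
    intro V hV
    rw [nonempty_iff_ne_empty]
    rintro rfl
    exact hV hB0
  have hFo : ∀ V ∈ 𝓕, IsOpen V ∧ Bd V := by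
    rintro V (⟨h1, h2⟩ | ⟨W, ⟨h1, h2⟩, rfl⟩)
    · exact ⟨hTopen V h1, h2⟩
    · have := hb W (hTopen W h1) (hne W h2)
      exact ⟨hCo _ this.1, hBC _ this.1⟩
  have hFpf : ∀ x, {V | V ∈ 𝓕 ∧ x ∈ V}.Finite := by
    intro x
    have hfin := finite_T hC hBC hB0 hBU hBm hp x
    refine (hfin.union (hfin.image b)).subset ?_
    rintro V ⟨(⟨h1, h2⟩ | ⟨W, ⟨h1, h2⟩, rfl⟩), hxV⟩
    · exact Or.inl ⟨h1, hxV⟩
    · exact Or.inr ⟨W, ⟨h1, (hb W (hTopen W h1) (hne W h2)).2.2 hxV⟩, rfl⟩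
  have hFcov : ∀ x, ∃ V ∈ 𝓕, x ∈ V := by
    intro x
    have key : ∀ V, T C Bd p V → x ∈ V → ∃ W ∈ 𝓕, x ∈ W := by
      intro V
      induction V using (wf_relX hC hBC hB0 hBU hBm hp x).induction with
      | _ V ih =>
        intro hTV hxV
        by_cases hbd : Bd V
        · exact ⟨V, Or.inl ⟨hTV, hbd⟩, hxV⟩
        · by_cases hxp : x = p V
          · refine ⟨b V, Or.inr ⟨V, ⟨hTV, hbd⟩, rfl⟩, ?_⟩
            rw [hxp]
            exact (hb V (hTopen V hTV) (hne V hbd)).2.1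
          · obtain ⟨E, hE, hxE⟩ := hMx x (V \ {p V})
              ((hTopen V hTV).sdiff isClosed_singleton) ⟨hxV, hxp⟩
            obtain ⟨V0, hV0, hV0V⟩ := hTV
            have hrel : Rel C Bd p V E := ⟨hbd, hE⟩
            exact ih E ⟨hrel, reach_DU ⟨_, hV0.1⟩ hV0V, hxE⟩
              ⟨V0, hV0, hV0V.tail hrel⟩ hxE
    obtain ⟨E, hE, hxE⟩ := hMx x univ isOpen_univ trivial
    exact key E ⟨E, hE, Relation.ReflTransGen.refl⟩ hxE
  -- pass from finite unions to members of the cover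
  choose! F hF1 hF2 hF3 using fun V (hV : V ∈ 𝓕) => (hFo V hV).2
  refine ⟨{W | ∃ V ∈ 𝓕, ∃ U ∈ F V, W = V ∩ U}, ?_, ?_, ?_⟩
  · rintro W ⟨V, hV, U, hUF, rfl⟩
    exact ⟨(hFo V hV).1.inter (hU U (hF1 V hV hUF)), U, hF1 V hV hUF, inter_subset_right⟩
  · rw [eq_univ_iff_forall]
    intro x
    obtain ⟨V, hV, hxV⟩ := hFcov x
    obtain ⟨U, hUF, hxU⟩ := hF3 V hV hxV
    exact ⟨V ∩ U, ⟨V, hV, U, hUF, rfl⟩, hxV, hxU⟩
  · intro x
    have h1 : (⋃ V ∈ {V | V ∈ 𝓕 ∧ x ∈ V}, (fun U => V ∩ U) '' F V).Finite :=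
      (hFpf x).biUnion fun V hV => (hF2 V hV.1).image _
    refine h1.subset ?_
    rintro W ⟨⟨V, hV, U, hUF, rfl⟩, hxW⟩
    exact mem_biUnion (show V ∈ {V | V ∈ 𝓕 ∧ x ∈ V} from ⟨hV, hxW.1⟩) ⟨U, hUF, rfl⟩

end Pool.Agent.Y444.SubInf
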